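import Pool.Agent.H36.QT.Stm

/-!
# Module T1 of the disproof of MP_02a80e_co (seat helper39)

The combinatorial content of a quadratic triangulation.
-/

set_option autoImplicit false

open Finset

namespace Pool.Agent.H39.QT

open Pool.Agent.H36.QT

lemma vtx_injective {α : Type} : Function.Injective (vtx : Set α → α → ℝ) := by
  intro B C h
  ext i
  have := congrFun h i
  simp only [vtx] at this
  by_cases h1 : i ∈ B <;> by_cases h2 : i ∈ C <;> simp_all

section General

variable {E : Type} [AddCommGroup E] [Module ℝ E] {A : Set E} {K : Geometry.SimplicialComplex ℝ E}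

/-- Every face is contained in a facet. -/
lemma exists_facet (hA : A.Finite) (hK : IsQuadratic A K) {s : Finset E} (hs : s ∈ K.faces) :
    ∃ t ∈ K.facets, s ⊆ t := by
  classical
  have hfin : (K.faces).Finite := by
    refine (Set.Finite.subset (hA.toFinset.powerset.finite_toSet) ?_)
    intro u hu
    simp only [Finset.coe_powerset, Set.mem_preimage, Set.mem_powerset_iff,
      Set.Finite.coe_toFinset]
    exact hK.vert u hu
  obtain ⟨t, hst, ht⟩ := hfin.exists_le_maximal hs
  refine ⟨t, ⟨ht.prop, fun u hu htu => ?_⟩, hst⟩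
  exact le_antisymm htu (ht.le_of_ge hu htu)

/-- The lattice condition for multisets of points. -/
lemma exists_int_weights (hK : IsQuadratic A K) {t : Finset E} (ht : t ∈ K.facets)
    (M : Multiset E) (hM : ∀ a ∈ M, a ∈ A) :
    ∃ n : E → ℤ, ∑ v ∈ t, n v = (M.card : ℤ) ∧ ∑ v ∈ t, (n v : ℝ) • v = M.sum := by
  induction M using Multiset.induction_on with
  | empty => exact ⟨0, by simp, by simp⟩
  | cons a M ih =>
    obtain ⟨n, h1, h2⟩ := ih (fun b hb => hM b (Multiset.mem_cons_of_mem hb))
    obtain ⟨m, h3, h4⟩ := hK.unimodular t ht a (hM a (Multiset.mem_cons_self a M))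
    refine ⟨fun v => m v + n v, ?_, ?_⟩
    · rw [Finset.sum_add_distrib, h1, h3, Multiset.card_cons]; push_cast; ring
    · rw [Multiset.sum_cons, ← h2, ← h4, ← Finset.sum_add_distrib]
      refine Finset.sum_congr rfl fun v _ => ?_
      push_cast
      rw [add_smul]

lemma weights_eq {t : Finset E} (ht : AffineIndependent ℝ ((↑) : t → E)) (f g : E → ℝ)
    (h1 : ∑ v ∈ t, f v = ∑ v ∈ t, g v) (h2 : ∑ v ∈ t, f v • v = ∑ v ∈ t, g v • v) :
    ∀ v ∈ t, f v = g v := by
  intro v hv
  rw [affineIndependent_iff] at ht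
  have := ht Finset.univ (fun w => f w - g w) ?_ ?_ ⟨v, hv⟩ (Finset.mem_univ _)
  · exact sub_eq_zero.1 this
  · rw [Finset.sum_coe_sort t (fun w => f w - g w), Finset.sum_sub_distrib, h1, sub_self]
  · rw [Finset.sum_coe_sort t (fun w => (f w - g w) • w)]
    simp only [sub_smul]
    rw [Finset.sum_sub_distrib, h2, sub_self]

/-- Every multiset of points of `A` has the same sum as a multiset of vertices of a face. -/
lemma exists_multiset (hA : A.Finite) (hK : IsQuadratic A K) (M : Multiset E) (hM0 : M ≠ 0)
    (hM : ∀ a ∈ M, a ∈ A) :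
    ∃ t ∈ K.faces, ∃ M' : Multiset E, (∀ x ∈ M', x ∈ t) ∧ M'.card = M.card ∧ M'.sum = M.sum := by
  classical
  have hk : (0 : ℝ) < M.card := by
    exact_mod_cast Multiset.card_pos.2 hM0
  have hp : (M.card : ℝ)⁻¹ • M.sum ∈ convexHull ℝ A := by
    have h1 : M.sum = ∑ v ∈ M.toFinset, (M.count v : ℝ) • v := by
      rw [Finset.sum_multiset_count]
      refine Finset.sum_congr rfl fun v _ => ?_
      rw [Nat.cast_smul_eq_nsmul]
    have h2 : ∑ v ∈ M.toFinset, (M.count v : ℝ) = M.card := by
      exact_mod_cast Multiset.toFinset_sum_count_eq M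
    rw [h1, Finset.smul_sum]
    simp only [smul_smul]
    refine (convex_convexHull ℝ A).sum_mem (fun v _ => ?_) ?_ (fun v hv => ?_)
    · positivity
    · rw [← Finset.mul_sum, h2, inv_mul_cancel₀ hk.ne']
    · exact subset_convexHull ℝ A (hM v (Multiset.mem_toFinset.1 hv))
  rw [← hK.cover, Geometry.SimplicialComplex.mem_space_iff] at hp
  obtain ⟨s, hs, hps⟩ := hp
  obtain ⟨t, ht, hst⟩ := exists_facet hA hK hs
  have hpt := convexHull_mono (Finset.coe_subset.2 hst) hps
  rw [Finset.mem_convexHull'] at hpt
  obtain ⟨lam, hl0, hl1, hl2⟩ := hpt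
  obtain ⟨n, hn1, hn2⟩ := exists_int_weights hK ht M hM
  have key : ∀ v ∈ t, (n v : ℝ) = M.card * lam v := by
    refine weights_eq (K.indep ht.1) (fun v => (n v : ℝ)) (fun v => M.card * lam v) ?_ ?_
    · rw [← Finset.mul_sum, hl1, mul_one]
      exact_mod_cast hn1
    · simp only [mul_smul]
      rw [← Finset.smul_sum, hl2, hn2, smul_smul, mul_inv_cancel₀ hk.ne', one_smul]
  have hn0 : ∀ v ∈ t, 0 ≤ n v := by
    intro v hv
    have : (0 : ℝ) ≤ n v := by
      rw [key v hv]
      exact mul_nonneg hk.le (hl0 v hv)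
    exact_mod_cast this
  refine ⟨t, ht.1, ∑ v ∈ t, (n v).toNat • ({v} : Multiset E), ?_, ?_, ?_⟩
  · intro x hx
    rw [Multiset.mem_sum] at hx
    obtain ⟨v, hv, hxv⟩ := hx
    have : x = v := by
      have := Multiset.mem_of_mem_nsmul hxv
      simpa using this
    rw [this]; exact hv
  · rw [Multiset.card_sum]
    simp only [Multiset.card_nsmul, Multiset.card_singleton, mul_one]
    have : ((∑ v ∈ t, (n v).toNat : ℕ) : ℤ) = (M.card : ℤ) := by
      rw [← hn1]
      push_cast
      refine Finset.sum_congr rfl fun v hv => ?_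
      exact Int.toNat_of_nonneg (hn0 v hv)
    exact_mod_cast this
  · rw [← hn2, Multiset.sum_sum]
    refine Finset.sum_congr rfl fun v hv => ?_
    rw [Multiset.sum_nsmul, Multiset.sum_singleton, ← Nat.cast_smul_eq_nsmul ℝ]
    congr 1
    have := Int.toNat_of_nonneg (hn0 v hv)
    exact_mod_cast this

end General

/-- Two multisets of vertices of a simplex with the same cardinality and the same sum agree. -/
lemma multiset_eq {E : Type} [AddCommGroup E] [Module ℝ E] {t : Finset E}
    (ht : AffineIndependent ℝ ((↑) : t → E)) (M M' : Multiset E) (h : ∀ x ∈ M, x ∈ t)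
    (h' : ∀ x ∈ M', x ∈ t) (hc : M.card = M'.card) (hs : M.sum = M'.sum) : M = M' := by
  classical
  have key : ∀ v ∈ t, (M.count v : ℝ) = M'.count v := by
    refine weights_eq ht (fun v => (M.count v : ℝ)) (fun v => (M'.count v : ℝ)) ?_ ?_
    · have h1 := Multiset.sum_count_eq_card (s := t) (m := M) h
      have h2 := Multiset.sum_count_eq_card (s := t) (m := M') h'
      exact_mod_cast (h1.trans (hc.trans h2.symm))
    · simp only [Nat.cast_smul_eq_nsmul]
      rw [← Finset.sum_multiset_count_of_subset M t (fun x hx => h x (Multiset.mem_toFinset.1 hx)),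
        ← Finset.sum_multiset_count_of_subset M' t (fun x hx => h' x (Multiset.mem_toFinset.1 hx)),
        hs]
  ext v
  by_cases hv : v ∈ t
  · exact_mod_cast key v hv
  · rw [Multiset.count_eq_zero.2 (fun h1 => hv (h v h1)),
      Multiset.count_eq_zero.2 (fun h1 => hv (h' v h1))]

/-- Module T1: the combinatorial content of a quadratic triangulation. -/
theorem t1 : S_T1 := by
  classical
  intro α _ M ⟨K, hK⟩
  have hA : (verts M).Finite := by
    have : verts M ⊆ Set.range (vtx : Set α → α → ℝ) := by
      rintro x ⟨B, _, rfl⟩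
      exact ⟨B, rfl⟩
    exact (Set.finite_range _).subset this
  have hv : ∀ B, M.IsBase B → vtx B ∈ verts M := fun B hB => ⟨B, hB, rfl⟩
  obtain ⟨h, hreg⟩ := hK.regular
  -- multisets of bases of a face, against another multiset
  have hle : ∀ s ∈ K.faces, ∀ P Q : Multiset (α → ℝ), (∀ x ∈ P, x ∈ s) → (∀ x ∈ Q, x ∈ verts M) →
      P.card = Q.card → P.sum = Q.sum → (P.map h).sum ≤ (Q.map h).sum ∧
        ((P.map h).sum = (Q.map h).sum → ∀ x ∈ Q, x ∈ s) := by
    intro s hs P Q hP hQ hc hsum
    obtain ⟨_, hsA, l, c, h1, h2⟩ := (hreg s).1 hs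
    have e1 : (P.map h).sum = (P.map (fun x => l x + c)).sum := by
      congr 1
      refine Multiset.map_congr rfl fun x hx => ?_
      exact ((h2 x (hsA (hP x hx))).2 (hP x hx)).symm
    have e2 : ∀ R : Multiset (α → ℝ), (R.map (fun x => l x + c)).sum = l R.sum + R.card * c := by
      intro R
      rw [Multiset.sum_map_add, map_multiset_sum, Multiset.map_const', Multiset.sum_replicate,
        nsmul_eq_mul]
    have e3 : (P.map h).sum = (Q.map (fun x => l x + c)).sum := by
      rw [e1, e2, e2, hc, hsum]
    have e4 : (Q.map (fun x => l x + c)).sum ≤ (Q.map h).sum :=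
      Multiset.sum_map_le_sum_map _ _ fun x hx => h1 x (hQ x hx)
    refine ⟨e3.le.trans e4, fun heq x hx => ?_⟩
    by_contra hxs
    have hlt : l x + c < h x := lt_of_le_of_ne (h1 x (hQ x hx)) fun h3 =>
      hxs ((h2 x (hQ x hx)).1 h3)
    have : (Q.map (fun x => l x + c)).sum < (Q.map h).sum := by
      obtain ⟨R, rfl⟩ := Multiset.exists_cons_of_mem hx
      rw [Multiset.map_cons, Multiset.sum_cons, Multiset.map_cons, Multiset.sum_cons]
      refine add_lt_add_of_lt_of_le hlt ?_
      exact Multiset.sum_map_le_sum_map _ _ fun y hy =>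
        h1 y (hQ y (Multiset.mem_cons_of_mem hy))
    exact absurd (e3.symm.trans heq) this.ne
  have htri : ∀ x y z : α → ℝ, x ∈ verts M → y ∈ verts M → z ∈ verts M →
      ({x, y} : Finset (α → ℝ)) ∈ K.faces → ({x, z} : Finset (α → ℝ)) ∈ K.faces →
      ({y, z} : Finset (α → ℝ)) ∈ K.faces → ({x, y, z} : Finset (α → ℝ)) ∈ K.faces := by
    intro x y z hx hy hz hxy hxz hyz
    by_contra hno
    have hxy' : x ≠ y := by
      rintro rfl
      exact hno (by simpa using hxz)
    have hxz' : x ≠ z := by
      rintro rfl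
      refine hno ?_
      have : ({x, y, x} : Finset (α → ℝ)) = {x, y} := by
        ext u; simp; tauto
      rw [this]; exact hxy
    have hyz' : y ≠ z := by
      rintro rfl
      exact hno (by simpa using hxy)
    have h3 := hK.flag {x, y, z} ⟨x, by simp⟩ (by
      intro u hu
      simp only [Finset.coe_insert, Finset.coe_singleton, Set.mem_insert_iff,
        Set.mem_singleton_iff] at hu
      rcases hu with rfl | rfl | rfl <;> assumption) hno (by
      intro t ht hne
      obtain ⟨u, hu, hut⟩ := Finset.exists_of_ssubset ht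
      have hsub := ht.1
      simp only [Finset.mem_insert, Finset.mem_singleton] at hu
      rcases hu with rfl | rfl | rfl
      · refine K.down_closed hyz (fun v hv => ?_) hne
        have := hsub hv
        simp only [Finset.mem_insert, Finset.mem_singleton] at this ⊢
        rcases this with rfl | h | h
        · exact absurd hv hut
        · exact Or.inl h
        · exact Or.inr h
      · refine K.down_closed hxz (fun v hv => ?_) hne
        have := hsub hv
        simp only [Finset.mem_insert, Finset.mem_singleton] at this ⊢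
        rcases this with h | rfl | h
        · exact Or.inl h
        · exact absurd hv hut
        · exact Or.inr h
      · refine K.down_closed hxy (fun v hv => ?_) hne
        have := hsub hv
        simp only [Finset.mem_insert, Finset.mem_singleton] at this ⊢
        rcases this with h | h | rfl
        · exact Or.inl h
        · exact Or.inr h
        · exact absurd hv hut)
    rw [Finset.card_eq_three.2 ⟨x, y, z, hxy', hxz', hyz', rfl⟩] at h3
    omega
  refine ⟨fun B => h (vtx B), fun X Y => ({vtx X, vtx Y} : Finset (α → ℝ)) ∈ K.faces,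
    ?_, ?_, ?_, ?_, ?_⟩
  · intro X Y hXY
    rw [Finset.pair_comm]; exact hXY
  · intro X Y hX hY
    obtain ⟨t, ht, M', hM', hc, hs⟩ := exists_multiset hA hK {vtx X, vtx Y} (by simp) (by
      intro a ha
      simp only [Multiset.insert_eq_cons, Multiset.mem_cons, Multiset.mem_singleton] at ha
      rcases ha with rfl | rfl
      · exact hv X hX
      · exact hv Y hY)
    rw [Multiset.card_pair] at hc
    obtain ⟨a, b, rfl⟩ := Multiset.card_eq_two.1 hc
    have ha : a ∈ t := hM' a (by simp)
    have hb : b ∈ t := hM' b (by simp)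
    obtain ⟨X', hX', rfl⟩ := hK.vert t ht ha
    obtain ⟨Y', hY', rfl⟩ := hK.vert t ht hb
    refine ⟨X', Y', hX', hY', K.down_closed ht (fun v hv => ?_) ⟨vtx X', by simp⟩, ?_⟩
    · simp only [Finset.mem_insert, Finset.mem_singleton] at hv
      rcases hv with rfl | rfl <;> assumption
    · simpa using hs
  · intro X Y X' Y' hX hY hX' hY' hXY hsum
    obtain ⟨h1, h2⟩ := hle _ hXY {vtx X, vtx Y} {vtx X', vtx Y'} (by simp) (by
      intro a ha
      simp only [Multiset.insert_eq_cons, Multiset.mem_cons, Multiset.mem_singleton] at ha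
      rcases ha with rfl | rfl
      · exact hv X' hX'
      · exact hv Y' hY') (by simp) (by simpa using hsum.symm)
    simp only [Multiset.insert_eq_cons, Multiset.map_cons, Multiset.map_singleton,
      Multiset.sum_cons, Multiset.sum_singleton, Multiset.mem_cons, Multiset.mem_singleton,
      forall_eq_or_imp, forall_eq, Finset.mem_insert, Finset.mem_singleton] at h1 h2
    rcases h1.lt_or_eq with h3 | h3
    · exact Or.inr (Or.inr h3)
    · obtain ⟨h4, h5⟩ := h2 h3
      rcases h4 with h4 | h4
      · refine Or.inl ⟨vtx_injective h4, vtx_injective ?_⟩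
        rw [h4] at hsum
        exact add_left_cancel hsum
      · refine Or.inr (Or.inl ⟨vtx_injective h4, vtx_injective ?_⟩)
        rw [h4, add_comm (vtx X)] at hsum
        exact add_left_cancel hsum
  · intro X Y Z hX hY hZ
    obtain ⟨t, ht, M', hM', hc, hs⟩ := exists_multiset hA hK {vtx X, vtx Y, vtx Z} (by simp) (by
      intro a ha
      simp only [Multiset.insert_eq_cons, Multiset.mem_cons, Multiset.mem_singleton] at ha
      rcases ha with rfl | rfl | rfl
      · exact hv X hX
      · exact hv Y hY
      · exact hv Z hZ)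
    have hc3 : M'.card = 3 := by rw [hc]; simp
    obtain ⟨a, b, c, rfl⟩ := Multiset.card_eq_three.1 hc3
    have ha : a ∈ t := hM' a (by simp)
    have hb : b ∈ t := hM' b (by simp)
    have hc' : c ∈ t := hM' c (by simp)
    obtain ⟨X', hX', rfl⟩ := hK.vert t ht ha
    obtain ⟨Y', hY', rfl⟩ := hK.vert t ht hb
    obtain ⟨Z', hZ', rfl⟩ := hK.vert t ht hc'
    have hpair : ∀ U V : Set α, vtx U ∈ t → vtx V ∈ t →
        ({vtx U, vtx V} : Finset (α → ℝ)) ∈ K.faces := by
      intro U V hU hV
      refine K.down_closed ht (fun v hv => ?_) ⟨vtx U, by simp⟩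
      simp only [Finset.mem_insert, Finset.mem_singleton] at hv
      rcases hv with rfl | rfl <;> assumption
    refine ⟨X', Y', Z', hX', hY', hZ', hpair _ _ ha hb, hpair _ _ ha hc', hpair _ _ hb hc', ?_⟩
    simpa [add_assoc] using hs
  · intro X Y Z X' Y' Z' hX hY hZ hX' hY' hZ' h1 h2 h3 h1' h2' h3' hsum
    have hs := htri _ _ _ (hv X hX) (hv Y hY) (hv Z hZ) h1 h2 h3
    have hs' := htri _ _ _ (hv X' hX') (hv Y' hY') (hv Z' hZ') h1' h2' h3'
    have hin : ∀ x ∈ ({vtx X, vtx Y, vtx Z} : Multiset (α → ℝ)), x ∈ verts M := by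
      intro a ha
      simp only [Multiset.insert_eq_cons, Multiset.mem_cons, Multiset.mem_singleton] at ha
      rcases ha with rfl | rfl | rfl
      · exact hv X hX
      · exact hv Y hY
      · exact hv Z hZ
    have hin' : ∀ x ∈ ({vtx X', vtx Y', vtx Z'} : Multiset (α → ℝ)), x ∈ verts M := by
      intro a ha
      simp only [Multiset.insert_eq_cons, Multiset.mem_cons, Multiset.mem_singleton] at ha
      rcases ha with rfl | rfl | rfl
      · exact hv X' hX'
      · exact hv Y' hY'
      · exact hv Z' hZ'
    have hsum' : ({vtx X', vtx Y', vtx Z'} : Multiset (α → ℝ)).sum =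
        ({vtx X, vtx Y, vtx Z} : Multiset (α → ℝ)).sum := by
      simpa [add_assoc] using hsum
    obtain ⟨a1, a2⟩ := hle _ hs {vtx X, vtx Y, vtx Z} {vtx X', vtx Y', vtx Z'} (by simp) hin'
      (by simp) hsum'.symm
    obtain ⟨b1, _⟩ := hle _ hs' {vtx X', vtx Y', vtx Z'} {vtx X, vtx Y, vtx Z} (by simp) hin
      (by simp) hsum'
    have hmem := a2 (le_antisymm a1 b1)
    have := multiset_eq (K.indep hs) ({vtx X', vtx Y', vtx Z'} : Multiset (α → ℝ))
      {vtx X, vtx Y, vtx Z} hmem (by simp) (by simp) hsum'
    refine Multiset.map_injective vtx_injective ?_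
    simpa using this

end Pool.Agent.H39.QT
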