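import Pool.Agent.H36.QT.Sem

/-!
# Module W1 of the disproof of MP_02a80e_co (seat helper39): soundness of the kernel checker

The fixed statement `S_W1` lacks two hypotheses (the tag of the states must have at most 32 bits, and
the triples of the table `ct` must be nonzero numbers without bits outside of `32, …, 381`);
`S_W1'` is the statement with these hypotheses.
-/

set_option autoImplicit false
set_option exponentiation.threshold 1000

namespace Pool.Agent.H39.QT

open Pool.Agent.H36.QT

/-- W1: soundness of the checker (with the hypotheses on the tags and on the table `ct`). -/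
def S_W1' : Prop := ∀ db ct gt : Tr, (∀ f, ValidCub (ct.get f)) →
  (∀ f, ∀ F ∈ fs 31 (ct.get f), F ≠ 0 ∧ F % 2 ^ 32 = 0 ∧ F < 2 ^ 382) →
  (∀ g, GoodT (gt.get g)) →
  ∀ (l : List ℕ) (i : ℕ), i + l.length ≤ 2 ^ 32 → (∀ h < i, Valid (cl db h)) →
  nodes db ct gt l i = true → ∀ h < i + l.length, Valid (cl db h)

lemma frN_eq {α : Type} (v : ℕ) (k : ℕ → α) : frN v k = k v := rfl

lemma lit_add (e : ℕ → ℕ → Prop) {b : ℕ} (h : b < 207) (h' : 32 ≤ b) :
    Lit e (b + 175) ↔ ¬ Lit e b := by
  unfold Lit
  have h1 : ¬ (b + 175 < 207) := by omega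
  have h2 : b + 175 - 207 = b - 32 := by omega
  rw [if_neg h1, if_pos h, h2]

/-- The number has only bits `32, …, 381`. -/
def Real (d : ℕ) : Prop := ∀ b, d.testBit b = true → 32 ≤ b ∧ b < 382

lemma real_of {F : ℕ} (h1 : F % 2 ^ 32 = 0) (h2 : F < 2 ^ 382) : Real F := by
  intro b hb
  constructor
  · by_contra hlt
    have h3 : (F % 2 ^ 32).testBit b = (decide (b < 32) && F.testBit b) :=
      Nat.testBit_mod_two_pow F 32 b
    rw [h1, hb] at h3
    simp at h3
    omega
  · by_contra hge
    have := Nat.testBit_lt_two_pow (x := F) (i := b)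
      (lt_of_lt_of_le h2 (Nat.pow_le_pow_right (by norm_num) (by omega)))
    rw [hb] at this
    exact absurd this (by simp)

lemma hold_sw {e : ℕ → ℕ → Prop} {s d : ℕ} (hs : Hold e s) (hd : Real d)
    (hn : ∀ b, 32 ≤ b → b < 382 → d.testBit b = true → ¬ Lit e b) : Hold e (sw s d) := by
  intro b hb1 hb2 hb
  have h1 : (sw s d).testBit b = (s.testBit b || ((d <<< 175).testBit b || (d >>> 175).testBit b)) := by
    change (s ||| (d <<< 175 ||| d >>> 175)).testBit b = _
    rw [Nat.testBit_or, Nat.testBit_or]
  rw [h1, Bool.or_eq_true, Bool.or_eq_true] at hb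
  rcases hb with hb | hb | hb
  · exact hs b hb1 hb2 hb
  · have h7 := Nat.testBit_shiftLeft (x := d) (i := 175) (j := b)
    rw [hb] at h7
    have h8 := h7.symm
    rw [Bool.and_eq_true, decide_eq_true_eq] at h8
    obtain ⟨h2, h3⟩ := h8
    obtain ⟨h4, h5⟩ := hd _ h3
    obtain ⟨c, hc⟩ : ∃ c, c = b - 175 := ⟨_, rfl⟩
    rw [← hc] at h3 h4 h5
    have h6 : b = c + 175 := by omega
    subst h6
    exact (lit_add e (by omega) h4).2 (hn _ h4 h5 h3)
  · have hb' : d.testBit (b + 175) = true := by
      have h2 := Nat.testBit_shiftRight (x := d) (i := 175) (j := b)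
      rw [hb, Nat.add_comm] at h2
      exact h2.symm
    obtain ⟨h4, h5⟩ := hd _ hb'
    by_contra hno
    exact hn _ h4 h5 hb' ((lit_add e (by omega) hb1).2 hno)

lemma mask_eq : (nat_lit 0xffffffffffffffffffffffffffffffffffffffffffffffffffffffffffffffffffffffffffffffffffffffffffffffff : ℕ) = 2 ^ 384 - 1 := by
  norm_num

lemma land_mask (x : ℕ) : Nat.land x (nat_lit 0xffffffffffffffffffffffffffffffffffffffffffffffffffffffffffffffffffffffffffffffffffffffffffffffff) = x % 2 ^ 384 := by
  rw [mask_eq]
  exact Nat.and_two_pow_sub_one_eq_mod x 384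

lemma shift_eq (x : ℕ) : Nat.shiftRight x (nat_lit 384) = x / 2 ^ 384 :=
  Nat.shiftRight_eq_div_pow x 384

lemma natRec_ite {α : Type} (t f : α) (m : ℕ) :
    @Nat.rec (fun _ => α) t (fun _ _ => f) m = if m = 0 then t else f := by
  cases m with
  | zero => rfl
  | succ m => rfl

lemma cub_succ (n x a s : ℕ) (k : ℕ → Bool) : cub (n + 1) x a s k =
    if x = 0 then (if a = 0 then true else k (sw s a))
    else if Nat.land (x % 2 ^ 384) s = 0 then
      (if a = 0 then cub n (x / 2 ^ 384) (x % 2 ^ 384) s k else false)
    else cub n (x / 2 ^ 384) a s k := by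
  rw [← land_mask x, ← shift_eq x]
  change @Nat.rec (fun _ => Bool) (@Nat.rec (fun _ => Bool) true (fun _ _ => frN (sw s a) k) a)
        (fun _ _ => frN (Nat.land x
            (nat_lit 0xffffffffffffffffffffffffffffffffffffffffffffffffffffffffffffffffffffffffffffffffffffffffffffffff)) fun f =>
          frN (Nat.shiftRight x (nat_lit 384)) fun y =>
          @Nat.rec (fun _ => Bool) (@Nat.rec (fun _ => Bool) (cub n y f s k) (fun _ _ => false) a)
            (fun _ _ => cub n y a s k) (Nat.land f s)) x = _
  simp only [natRec_ite, frN_eq]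

lemma cub_sound {e : ℕ → ℕ → Prop} (F : ℕ)
    (hF : ∀ b, 32 ≤ b → b < 382 → F.testBit b = true → ¬ Lit e b) (k : ℕ → Bool) :
    ∀ (n x a s : ℕ), (∀ G ∈ fs n x, G ≠ 0 ∧ Real G) → (a ≠ 0 → Real a) →
      (F ∈ fs n x ∨ (a ≠ 0 ∧ F = a)) → Hold e s → cub (n + 1) x a s k = true →
      ∃ s', Hold e s' ∧ k s' = true := by
  intro n
  induction n with
  | zero =>
    intro x a s _ ha hFa hs hc
    rw [cub_succ] at hc
    rcases hFa with h | ⟨ha0, rfl⟩
    · simp [fs] at h
    · by_cases hx : x = 0
      · rw [if_pos hx, if_neg ha0] at hc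
        exact ⟨_, hold_sw hs (ha ha0) hF, hc⟩
      · rw [if_neg hx] at hc
        split_ifs at hc
        · exact absurd hc (by simp [cub])
  | succ n ih =>
    intro x a s hfs ha hFa hs hc
    rw [cub_succ] at hc
    by_cases hx : x = 0
    · rw [if_pos hx] at hc
      have hfs0 : fs (n + 1) x = [] := by simp [fs, hx]
      rw [hfs0] at hFa
      rcases hFa with h | ⟨ha0, rfl⟩
      · simp at h
      · rw [if_neg ha0] at hc
        exact ⟨_, hold_sw hs (ha ha0) hF, hc⟩
    · rw [if_neg hx] at hc
      have hfs1 : fs (n + 1) x = (x % 2 ^ 384) :: fs n (x / 2 ^ 384) := by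
        rw [fs, if_neg hx]
      rw [hfs1] at hFa hfs
      have hw := hfs _ (List.mem_cons_self)
      have hfs' : ∀ G ∈ fs n (x / 2 ^ 384), G ≠ 0 ∧ Real G :=
        fun G hG => hfs G (List.mem_cons_of_mem _ hG)
      by_cases hl : Nat.land (x % 2 ^ 384) s = 0
      · rw [if_pos hl] at hc
        by_cases ha0 : a = 0
        · rw [if_pos ha0] at hc
          refine ih _ _ _ hfs' (fun _ => hw.2) ?_ hs hc
          rcases hFa with h | ⟨h, _⟩
          · rcases List.mem_cons.1 h with h | h
            · exact Or.inr ⟨hw.1, h⟩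
            · exact Or.inl h
          · exact absurd ha0 h
        · rw [if_neg ha0] at hc
          exact absurd hc (by simp)
      · rw [if_neg hl] at hc
        refine ih _ _ _ hfs' ha ?_ hs hc
        rcases hFa with h | h
        · rcases List.mem_cons.1 h with h | h
          · exfalso
            obtain ⟨b, hb⟩ := Nat.exists_testBit_of_ne_zero hl
            have hb' : ((x % 2 ^ 384) &&& s).testBit b = true := hb
            rw [Nat.testBit_and, Bool.and_eq_true] at hb'
            obtain ⟨h1, h2⟩ := hb'
            rw [← h] at h1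
            obtain ⟨h3, h4⟩ := hw.2 b (by rw [← h]; exact h1)
            exact hF b h3 h4 h1 (hs b h3 h4 h2)
          · exact Or.inl h
        · exact Or.inr h

lemma boolRec_ite {α : Type} (t f : α) (b : Bool) :
    @Bool.rec (fun _ => α) f t b = if b = true then t else f := by
  cases b <;> rfl

lemma ble_iff (a b : ℕ) : (Nat.ble a b = true) ↔ a ≤ b := Nat.ble_eq.to_iff

lemma rup_succ (db ct : Tr) (i n c s : ℕ) : rup db ct i (n + 1) c s =
    if nat_lit 200000 ≤ Nat.land c (nat_lit 262143) then
      cub (nat_lit 32) (ct.get (Nat.sub (Nat.land c (nat_lit 262143)) (nat_lit 200000))) (nat_lit 0) s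
        (rup db ct i n (Nat.shiftRight c (nat_lit 18)))
    else if Nat.land c (nat_lit 262143) < i then
      (if Nat.xor (cl db (Nat.land c (nat_lit 262143)))
          (Nat.land (cl db (Nat.land c (nat_lit 262143))) s) = 0 then true
       else if Nat.land (Nat.xor (cl db (Nat.land c (nat_lit 262143)))
          (Nat.land (cl db (Nat.land c (nat_lit 262143))) s))
          (Nat.sub (Nat.xor (cl db (Nat.land c (nat_lit 262143)))
          (Nat.land (cl db (Nat.land c (nat_lit 262143))) s)) (nat_lit 1)) = 0 then
        rup db ct i n (Nat.shiftRight c (nat_lit 18))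
          (sw s (Nat.xor (cl db (Nat.land c (nat_lit 262143)))
          (Nat.land (cl db (Nat.land c (nat_lit 262143))) s)))
       else false)
    else false := by
  change (frN (Nat.land c (nat_lit 262143)) fun h =>
      frN (Nat.shiftRight c (nat_lit 18)) fun c' =>
      @Bool.rec (fun _ => Bool)
        (@Bool.rec (fun _ => Bool) false
          (frN (cl db h) fun N =>
           frN (Nat.xor N (Nat.land N s)) fun D =>
            @Nat.rec (fun _ => Bool) true
              (fun _ _ => @Nat.rec (fun _ => Bool) (frN (sw s D) (rup db ct i n c')) (fun _ _ => false)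
                (Nat.land D (Nat.sub D (nat_lit 1)))) D)
          (Nat.ble (Nat.succ h) i))
        (cub (nat_lit 32) (ct.get (Nat.sub h (nat_lit 200000))) (nat_lit 0) s (rup db ct i n c'))
        (Nat.ble (nat_lit 200000) h)) = _
  simp only [natRec_ite, frN_eq, boolRec_ite, ble_iff, Nat.succ_le_iff]

lemma rup_sound {e : ℕ → ℕ → Prop} {w : ℕ → ℝ} (hS : Sys e w) {db ct : Tr} {i : ℕ}
    (hct : ∀ f, ValidCub (ct.get f))
    (hwf : ∀ f, ∀ F ∈ fs 31 (ct.get f), F ≠ 0 ∧ Real F)
    (hdb : ∀ h < i, Valid (cl db h)) :
    ∀ (n c s : ℕ), Hold e s → rup db ct i n c s = true → False := by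
  intro n
  induction n with
  | zero =>
    intro c s _ hr
    exact absurd hr (by simp [rup])
  | succ n ih =>
    intro c s hs hr
    rw [rup_succ] at hr
    generalize Nat.land c (nat_lit 262143) = h at hr
    generalize Nat.shiftRight c (nat_lit 18) = c' at hr
    by_cases h1 : nat_lit 200000 ≤ h
    · rw [if_pos h1] at hr
      obtain ⟨F, hF, hF'⟩ := hct (Nat.sub h (nat_lit 200000)) e w hS
      obtain ⟨s', hs', hr'⟩ := cub_sound F hF' (rup db ct i n c') 31 _ 0 s
        (hwf _) (fun h => absurd rfl h) (Or.inl hF) hs hr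
      exact ih _ _ hs' hr'
    · rw [if_neg h1] at hr
      by_cases h2 : h < i
      · rw [if_pos h2] at hr
        have hN := hdb h h2 e w hS
        generalize cl db h = N at hr hN
        have hD : ∀ b, (Nat.xor N (Nat.land N s)).testBit b = (N.testBit b && !s.testBit b) := by
          intro b
          change (N ^^^ (N &&& s)).testBit b = _
          rw [Nat.testBit_xor, Nat.testBit_and]
          cases N.testBit b <;> cases s.testBit b <;> rfl
        generalize Nat.xor N (Nat.land N s) = D at hr hD
        by_cases h3 : D = 0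
        · refine hN fun b hb1 hb2 hb => hs b hb1 hb2 ?_
          have := hD b
          rw [h3, hb, Nat.zero_testBit] at this
          cases h4 : s.testBit b
          · rw [h4] at this
            exact absurd this (by simp)
          · rfl
        · rw [if_neg h3] at hr
          by_cases h4 : Nat.land D (Nat.sub D (nat_lit 1)) = 0
          · rw [if_pos h4] at hr
            obtain ⟨b, hb⟩ := Nat.exists_testBit_of_ne_zero h3
            -- `b` is the only bit of `D`
            have huniq : ∀ b', D.testBit b' = true → b' = b := by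
              intro b' hb'
              have h5 : D &&& (D - 1) = 0 := h4
              obtain ⟨m, rfl⟩ := (Nat.and_sub_one_eq_zero_iff_isPowerOfTwo h3).1 h5
              rw [Nat.testBit_two_pow] at hb hb'
              simp at hb hb'
              omega
            by_cases h5 : 32 ≤ b ∧ b < 382
            · refine ih _ _ (hold_sw hs ?_ ?_) hr
              · intro b' hb'
                rw [huniq b' hb']
                exact h5
              · intro b' hb1 hb2 hb' hlit
                rw [huniq b' hb'] at hlit
                refine hN fun b'' hc1 hc2 hc => ?_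
                by_cases h6 : b'' = b
                · rw [h6]; exact hlit
                · refine hs b'' hc1 hc2 ?_
                  by_contra h7
                  refine h6 (huniq b'' ?_)
                  rw [hD, hc]
                  simpa using h7
            · refine hN fun b'' hc1 hc2 hc => ?_
              refine hs b'' hc1 hc2 ?_
              by_contra h7
              refine h5 ?_
              have := huniq b'' (by
                rw [hD, hc]
                simpa using h7)
              rw [← this]
              exact ⟨hc1, hc2⟩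
          · rw [if_neg h4] at hr
            exact absurd hr (by simp)
      · rw [if_neg h2] at hr
        exact absurd hr (by simp)

lemma img_succ (T n l a b : ℕ) (k : ℕ → ℕ → Bool) : img T (n + 1) l a b k =
    if l = 0 then k a b else img T n (Nat.shiftRight l (nat_lit 9))
      (Nat.lor a (Nat.shiftLeft (nat_lit 1) (Nat.land l (nat_lit 511))))
      (Nat.lor b (Nat.shiftLeft (nat_lit 1) (ent T (Nat.land l (nat_lit 511))))) k := by
  change @Nat.rec (fun _ => Bool) (k a b)
        (fun _ _ => frN (Nat.land l (nat_lit 511)) fun q =>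
          frN (Nat.shiftRight l (nat_lit 9)) fun l' =>
          frN (Nat.lor a (Nat.shiftLeft (nat_lit 1) q)) fun a' =>
          frN (Nat.lor b (Nat.shiftLeft (nat_lit 1)
            (Nat.land (Nat.shiftRight T (Nat.mul (nat_lit 9) q)) (nat_lit 511)))) fun b' =>
              img T n l' a' b' k) l = _
  simp only [natRec_ite, frN_eq]
  rfl

lemma testBit_lor_shift (a q c : ℕ) :
    (Nat.lor a (Nat.shiftLeft (nat_lit 1) q)).testBit c = (a.testBit c || decide (q = c)) := by
  change (a ||| (1 <<< q)).testBit c = _
  rw [Nat.testBit_or, Nat.one_shiftLeft, Nat.testBit_two_pow]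

lemma img_sound (T : ℕ) (k : ℕ → ℕ → Bool) : ∀ (n l a b : ℕ),
    (∀ q, a.testBit q = true → b.testBit (ent T q) = true) → img T n l a b k = true →
    ∃ a' b', (∀ q, a'.testBit q = true → b'.testBit (ent T q) = true) ∧ k a' b' = true := by
  intro n
  induction n with
  | zero => intro l a b hab hk; exact ⟨a, b, hab, hk⟩
  | succ n ih =>
    intro l a b hab hk
    rw [img_succ] at hk
    by_cases hl : l = 0
    · rw [if_pos hl] at hk
      exact ⟨a, b, hab, hk⟩
    · rw [if_neg hl] at hk
      refine ih _ _ _ ?_ hk
      intro q hq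
      rw [testBit_lor_shift, Bool.or_eq_true, decide_eq_true_eq] at hq
      rw [testBit_lor_shift, Bool.or_eq_true, decide_eq_true_eq]
      rcases hq with hq | hq
      · exact Or.inl (hab q hq)
      · exact Or.inr (by rw [hq])

lemma node_eq (db ct gt : Tr) (i c : ℕ) : node db ct gt i c =
    if Nat.land c (nat_lit 1) = 0 then
      rup db ct i (nat_lit 200) (Nat.shiftRight c (nat_lit 1)) (Nat.lor (cl db i) i)
    else if Nat.land (Nat.shiftRight c (nat_lit 6)) (nat_lit 262143) < i then
      img (gt.get (Nat.land (Nat.shiftRight c (nat_lit 1)) (nat_lit 31))) (nat_lit 64)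
          (Nat.shiftRight c (nat_lit 24)) (nat_lit 0) (nat_lit 0) (fun a b =>
            @Bool.rec (fun _ => Bool) false (Nat.beq b (cl db i))
              (Nat.beq a (cl db (Nat.land (Nat.shiftRight c (nat_lit 6)) (nat_lit 262143)))))
    else false := by
  unfold node
  generalize rup db ct i (nat_lit 200) = R
  generalize img (gt.get (Nat.land (Nat.shiftRight c (nat_lit 1)) (nat_lit 31))) (nat_lit 64) = I
  rw [natRec_ite, frN_eq, frN_eq, boolRec_ite]
  simp only [ble_iff, Nat.succ_le_iff]

lemma node_sound {db ct gt : Tr} {i c : ℕ} (hi : i < 2 ^ 32)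
    (hct : ∀ f, ValidCub (ct.get f))
    (hwf : ∀ f, ∀ F ∈ fs 31 (ct.get f), F ≠ 0 ∧ Real F) (hgt : ∀ g, GoodT (gt.get g))
    (hdb : ∀ h < i, Valid (cl db h)) (hc : node db ct gt i c = true) : Valid (cl db i) := by
  intro e w hS hHold
  rw [node_eq] at hc
  by_cases h1 : Nat.land c (nat_lit 1) = 0
  · rw [if_pos h1] at hc
    refine rup_sound hS hct hwf hdb _ _ _ ?_ hc
    intro b hb1 hb2 hb
    have hb' : (cl db i ||| i).testBit b = true := hb
    rw [Nat.testBit_or, Bool.or_eq_true] at hb'
    rcases hb' with h | h
    · exact hHold b hb1 hb2 h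
    · have := Nat.testBit_lt_two_pow (x := i) (i := b)
        (lt_of_lt_of_le hi (Nat.pow_le_pow_right (by norm_num) hb1))
      rw [h] at this
      exact absurd this (by simp)
  · rw [if_neg h1] at hc
    split_ifs at hc with h2
    · obtain ⟨a, b, hab, hk⟩ := img_sound _ _ _ _ _ _ (by
        intro q hq
        exact absurd hq (by simp)) hc
      rw [boolRec_ite] at hk
      by_cases h3 : Nat.beq a (cl db (Nat.land (Nat.shiftRight c (nat_lit 6)) (nat_lit 262143))) = true
      · rw [if_pos h3] at hk
        have ha := Nat.eq_of_beq_eq_true h3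
        have hb := Nat.eq_of_beq_eq_true hk
        obtain ⟨e', w', hS', hT⟩ := hgt (Nat.land (Nat.shiftRight c (nat_lit 1)) (nat_lit 31)) e w hS
        refine hdb _ h2 e' w' hS' ?_
        rw [← ha]
        intro q hq1 hq2 hq
        obtain ⟨h4, h5, h6⟩ := hT q hq1 hq2
        refine h6.2 (hHold _ h4 h5 ?_)
        rw [← hb]
        exact hab q hq
      · rw [if_neg h3] at hk
        exact absurd hk (by simp)

lemma nodes_cons (db ct gt : Tr) (c : ℕ) (l : List ℕ) (i : ℕ) : nodes db ct gt (c :: l) i =
    if node db ct gt i c = true then nodes db ct gt l (i + 1) else false := by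
  change @Bool.rec (fun _ => Bool) false (frN (Nat.succ i) (nodes db ct gt l)) (node db ct gt i c) = _
  rw [boolRec_ite, frN_eq]

theorem w1 : S_W1' := by
  intro db ct gt hct hwf hgt
  have hwf' : ∀ f, ∀ F ∈ fs 31 (ct.get f), F ≠ 0 ∧ Real F := fun f F hF =>
    ⟨(hwf f F hF).1, real_of (hwf f F hF).2.1 (hwf f F hF).2.2⟩
  intro l
  induction l with
  | nil =>
    intro i _ hdb _ h hh
    exact hdb h (by simpa using hh)
  | cons c l ih =>
    intro i hi hdb hn h hh
    rw [nodes_cons] at hn
    rw [List.length_cons] at hi hh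
    by_cases h1 : node db ct gt i c = true
    · rw [if_pos h1] at hn
      have h2 := node_sound (by omega) hct hwf' hgt hdb h1
      refine ih (i + 1) (by omega) ?_ hn h (by omega)
      intro h' hh'
      rcases Nat.lt_succ_iff_lt_or_eq.1 hh' with h3 | h3
      · exact hdb h' h3
      · rw [h3]; exact h2
    · rw [if_neg h1] at hn
      exact absurd hn (by simp)

end Pool.Agent.H39.QT
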